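import Pool.Agent.Lib_helper33.FT.Fine

/-!
# Q1 cannot be decided in ZFC: both halves

The first clause of `result` is `LadderCharacterization` of helper70, the second one uses the
counterexample of helper89.
-/

set_option autoImplicit false

open Set Cardinal Topology Order Pool.Agent.Lib_helper70.Cor Pool.Agent.Lib_helper70.Lad
open Pool.Agent.Lib_helper89.Corson Pool.Agent.Lib_helper33.FT

namespace Pool.Agent.Results.MP_1c9258_gt.Independence

/-- The positive answer to Q1, word for word the frozen statement S12847. -/
def PositiveAnswer : Prop :=
  ∀ (X : Type) [TopologicalSpace X] [CompactSpace X] [T2Space X],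
    (∀ A : Set X, Cardinal.mk A ≤ Cardinal.continuum →
      ∃ (Γ : Type) (f : ↥(closure A) → (Γ → ℝ)),
        Topology.IsEmbedding f ∧ ∀ x, (Function.support (f x)).Countable) →
    ∃ (Γ : Type) (f : X → (Γ → ℝ)),
      Topology.IsEmbedding f ∧ ∀ x, (Function.support (f x)).Countable

/-- (1) The positive answer to Q1 is equivalent to compactness of ladder systems.
(2) A stationary set of points of cofinality `ω` of a regular cardinal above the continuum which
does not reflect refutes it (as in `L`). (3) Fine total probability measures, which exist after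
adding `κ` random reals to a model in which `κ` is strongly compact, prove it. -/
theorem result :
    (PositiveAnswer ↔ LadderCompactness) ∧
    (∀ (α : Type) [LinearOrder α] [WellFoundedLT α] [IsRegularCardinalOrder α],
      continuum < #α → ∀ S : Set α, IsStationary S → (∀ δ ∈ S, cof (Iio δ) = ℵ₀) →
      (∀ β : α, ℵ₀ < cof (Iio β) → ¬ IsStationary (Subtype.val ⁻¹' S : Set (Iio β))) →
      ¬ PositiveAnswer) ∧
    (FineTotalMeasures → PositiveAnswer) := by
  have h1 : PositiveAnswer ↔ LadderCompactness := by
    constructor
    · intro hQ α _ _ _ hα S L hS hL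
      by_contra hno
      push Not at hno
      obtain ⟨X, _, _, _, hsmall, hbad⟩ := counterexample_of_ladder hα hS hL hno
      exact hbad (hQ X fun A hA => (hsmall A hA).corson)
    · intro hLad X _ _ _ hX
      have h1 : SigmaOn (Set.univ : Set X) := by
        refine sigma_of_ladder hLad fun A hA => ?_
        classical
        obtain ⟨Γ, f, hf, hs⟩ := hX A hA
        refine ⟨Γ, fun x => if h : x ∈ closure A then f ⟨x, h⟩ else 0, ?_, ?_, ?_⟩
        · rw [continuousOn_iff_continuous_domRestrict]
          convert hf.continuous using 1
          funext x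
          simp [domRestrict]
        · intro x hx y hy hxy
          simp only [hx, hy, dif_pos] at hxy
          exact congrArg Subtype.val (hf.injective hxy)
        · intro x hx
          simp only [hx, dif_pos]
          exact hs ⟨x, hx⟩
      obtain ⟨Γ, φ, hc, hi, hs⟩ := h1
      exact ⟨Γ, φ, ((continuousOn_univ.1 hc).isClosedEmbedding
        (fun x y h => hi (mem_univ x) (mem_univ y) h)).isEmbedding, fun x => hs x (mem_univ x)⟩
  refine ⟨h1, ?_, fun hF => h1.2 (ladder_of_fine hF)⟩
  intro α _ _ _ hα S hS hcof hnr hQ
  obtain ⟨X, _, _, _, _, hsmall, hbad⟩ :=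
    counterexample (aleph0_lt_continuum.trans hα) hS hcof hnr
  exact hbad (hQ X fun A hA => (hsmall A (hA.trans_lt hα)).corson)

end Pool.Agent.Results.MP_1c9258_gt.Independence
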